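import Pool.Agent.Helper94.K4.Noline
import Pool.Agent.Helper14.K4.LA0

/-!
# Theorem K4R, row LA2N
-/

set_option autoImplicit false

open Set Module

namespace Pool.Agent.Helper94.K4
open Pool.Agent.Helper77.K4

/-- Two fields, no invariant line: this case does not occur. -/
theorem two_noline {V E G : Type*} [NormedAddCommGroup V] [NormedSpace ℝ V] [FiniteDimensional ℝ V]
    [NormedAddCommGroup E] [NormedSpace ℝ E] [FiniteDimensional ℝ E] [Group G]
    (D : LieData V E G) (hV : finrank ℝ V = 4) (hE : finrank ℝ E = 2)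
    (hX : ∀ ζ : E, D.X ζ = 0 → ζ = 0)
    (hno : ¬ ∃ H : Subgroup G, H.FiniteIndex ∧ ∃ ζ : E, ζ ≠ 0 ∧
      ∀ g ∈ H, D.ad g ζ ∈ Submodule.span ℝ {ζ}) : False := by
  haveI := D.discrete
  haveI := D.lattice
  refine two_noline_of D (fun Q hs hinv => ?_) hV hE hX hno
  by_contra hne
  exact hno (Pool.Agent.Helper14.K4.beta' D.ad D.L D.L_ad hE Q hs hne hinv)

end Pool.Agent.Helper94.K4
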