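import Pool.Agent.Helper77.K4.Lie

/-!
# Theorem K4R, row LA2N: two fields, no invariant line
-/

set_option autoImplicit false

open Set Module

namespace Pool.Agent.Helper94.K4
open Pool.Agent.Helper77.K4

/-! ### Alternating forms in dimension two -/

section alt

theorem skew_of_alt {E : Type*} [NormedAddCommGroup E] [NormedSpace ℝ E]
    (ω : E →ₗ[ℝ] E →ₗ[ℝ] ℝ) (hω : ∀ x, ω x x = 0) (x y : E) : ω x y = - ω y x := by
  have h := hω (x + y)
  simp only [map_add, LinearMap.add_apply, hω] at h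
  linarith

/-- Coordinates on a space of dimension two, and alternating forms. -/
theorem exists_coord {E : Type*} [NormedAddCommGroup E] [NormedSpace ℝ E] [FiniteDimensional ℝ E]
    (hE : finrank ℝ E = 2) : ∃ e₀ e₁ : E, ∃ d : E → E → ℝ,
      ∀ ω : E →ₗ[ℝ] E →ₗ[ℝ] ℝ, (∀ x, ω x x = 0) → ∀ x y, ω x y = d x y * ω e₀ e₁ := by
  let b := Module.finBasisOfFinrankEq ℝ E hE
  refine ⟨b 0, b 1, fun x y => b.repr x 0 * b.repr y 1 - b.repr x 1 * b.repr y 0, ?_⟩
  intro ω hω x y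
  have hsk := skew_of_alt ω hω
  have hx : x = b.repr x 0 • b 0 + b.repr x 1 • b 1 := by
    conv_lhs => rw [← b.sum_repr x, Fin.sum_univ_two]
  have hy : y = b.repr y 0 • b 0 + b.repr y 1 • b 1 := by
    conv_lhs => rw [← b.sum_repr y, Fin.sum_univ_two]
  conv_lhs => rw [hx, hy]
  simp only [map_add, map_smul, LinearMap.add_apply, LinearMap.smul_apply, hω, smul_eq_mul]
  rw [hsk (b 1) (b 0)]
  ring

/-- An area form on a subspace of dimension two. -/
theorem exists_area {V : Type*} [NormedAddCommGroup V] [NormedSpace ℝ V] [FiniteDimensional ℝ V]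
    (I : Submodule ℝ V) (hI : finrank ℝ I = 2) : ∃ ω : V →ₗ[ℝ] V →ₗ[ℝ] ℝ, (∀ u, ω u u = 0) ∧
      (∀ u ∈ I, ∀ v ∈ I, ω u v = 0 → u ≠ 0 → v ∈ Submodule.span ℝ {u}) ∧
      ∀ ω' : V →ₗ[ℝ] V →ₗ[ℝ] ℝ, (∀ u, ω' u u = 0) → ∃ c : ℝ, ∀ u ∈ I, ∀ v ∈ I,
        ω' u v = c * ω u v := by
  let b := Module.finBasisOfFinrankEq ℝ I hI
  obtain ⟨f₀, hf₀⟩ := LinearMap.exists_extend (b.coord 0)
  obtain ⟨f₁, hf₁⟩ := LinearMap.exists_extend (b.coord 1)
  have h0 : ∀ u (hu : u ∈ I), f₀ u = b.repr ⟨u, hu⟩ 0 := fun u hu =>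
    LinearMap.congr_fun hf₀ ⟨u, hu⟩
  have h1 : ∀ u (hu : u ∈ I), f₁ u = b.repr ⟨u, hu⟩ 1 := fun u hu =>
    LinearMap.congr_fun hf₁ ⟨u, hu⟩
  have hrep : ∀ u ∈ I, u = f₀ u • (b 0 : V) + f₁ u • (b 1 : V) := by
    intro u hu
    have h2 := b.sum_repr ⟨u, hu⟩
    rw [Fin.sum_univ_two] at h2
    have h3 := congrArg (Subtype.val) h2
    rw [h0 u hu, h1 u hu]
    exact h3.symm
  refine ⟨LinearMap.mk₂ ℝ (fun u v => f₀ u * f₁ v - f₁ u * f₀ v) ?_ ?_ ?_ ?_, ?_, ?_, ?_⟩
  · intro x y z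
    rw [map_add, map_add]
    ring
  · intro c x y
    rw [map_smul, map_smul, smul_eq_mul, smul_eq_mul, smul_eq_mul]
    ring
  · intro x y z
    rw [map_add, map_add]
    ring
  · intro c x y
    rw [map_smul, map_smul, smul_eq_mul, smul_eq_mul, smul_eq_mul]
    ring
  · intro u
    rw [LinearMap.mk₂_apply]
    ring
  · intro u hu v hv h hne
    rw [LinearMap.mk₂_apply] at h
    rw [Submodule.mem_span_singleton]
    have hu' := hrep u hu
    have hv' := hrep v hv
    by_cases h2 : f₀ u = 0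
    · have h3 : f₁ u ≠ 0 := by
        intro h3
        apply hne
        rw [hu', h2, h3, zero_smul, zero_smul, add_zero]
      have h4 : f₀ v = 0 := by
        rw [h2, zero_mul, zero_sub, neg_eq_zero] at h
        exact (mul_eq_zero.1 h).resolve_left h3
      refine ⟨f₁ v / f₁ u, ?_⟩
      have e1 : (f₁ v / f₁ u) • u = (f₁ v / f₁ u) • (f₀ u • (b 0 : V) + f₁ u • (b 1 : V)) :=
        congrArg _ hu'
      rw [e1, h2, zero_smul, zero_add, smul_smul, div_mul_cancel₀ _ h3]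
      rw [h4, zero_smul, zero_add] at hv'
      exact hv'.symm
    · refine ⟨f₀ v / f₀ u, ?_⟩
      have h4 : f₁ v = f₀ v / f₀ u * f₁ u := by
        field_simp
        linarith
      have e1 : (f₀ v / f₀ u) • u = (f₀ v / f₀ u) • (f₀ u • (b 0 : V) + f₁ u • (b 1 : V)) :=
        congrArg _ hu'
      rw [e1, smul_add, smul_smul, smul_smul, div_mul_cancel₀ _ h2, ← h4]
      exact hv'.symm
  · intro ω' hω'
    refine ⟨ω' (b 0) (b 1), fun u hu v hv => ?_⟩
    rw [LinearMap.mk₂_apply]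
    have hsk := skew_of_alt ω' hω'
    conv_lhs => rw [hrep u hu, hrep v hv]
    simp only [map_add, map_smul, LinearMap.add_apply, LinearMap.smul_apply, hω', smul_eq_mul]
    rw [hsk (b 1) (b 0)]
    ring

/-- A linear space of singular maps from a plane to a plane without common kernel has a common
image line. -/
theorem common_image {U E V : Type*} [NormedAddCommGroup U] [NormedSpace ℝ U]
    [NormedAddCommGroup E] [NormedSpace ℝ E] [FiniteDimensional ℝ E]
    [NormedAddCommGroup V] [NormedSpace ℝ V]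
    (hE : finrank ℝ E = 2) {I : Submodule ℝ V} (ω : V →ₗ[ℝ] V →ₗ[ℝ] ℝ) (hω : ∀ u, ω u u = 0)
    (hω2 : ∀ u ∈ I, ∀ v ∈ I, ω u v = 0 → u ≠ 0 → v ∈ Submodule.span ℝ {u})
    (M : U →ₗ[ℝ] E →ₗ[ℝ] V) (hM : ∀ u ξ, M u ξ ∈ I)
    (hs : ∀ u ξ η, ω (M u ξ) (M u η) = 0)
    (hk : ∀ ξ, (∀ u, M u ξ = 0) → ξ = 0) :
    ∃ ι : V, ∀ u ξ, M u ξ ∈ Submodule.span ℝ {ι} := by
  by_cases h0 : ∀ u ξ, M u ξ = 0
  · exact ⟨0, fun u ξ => by rw [h0]; exact Submodule.zero_mem _⟩
  push Not at h0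
  obtain ⟨u₁, η, hη⟩ := h0
  have hskew := skew_of_alt ω hω
  -- a kernel vector
  obtain ⟨ξ', hξ'⟩ : ∃ ξ', ξ' ∉ Submodule.span ℝ {η} := by
    by_contra hcon
    push Not at hcon
    have h1 : Submodule.span ℝ {η} = ⊤ := eq_top_iff.2 fun x _ => hcon x
    have h2 := finrank_span_le_card (R := ℝ) ({η} : Set E)
    rw [h1, finrank_top, hE] at h2
    simp at h2
  have h1 := hω2 _ (hM u₁ η) _ (hM u₁ ξ') (hs u₁ η ξ') hη
  obtain ⟨c, hc⟩ := Submodule.mem_span_singleton.1 h1
  set ξ₁ := ξ' - c • η with hξ₁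
  have hξ₁0 : ξ₁ ≠ 0 := by
    intro h
    apply hξ'
    rw [Submodule.mem_span_singleton]
    exact ⟨c, (sub_eq_zero.1 h).symm⟩
  have hker : M u₁ ξ₁ = 0 := by
    rw [hξ₁, map_sub, map_smul, hc, sub_self]
  have hpol : ∀ u v ξ η, ω (M u ξ) (M v η) + ω (M v ξ) (M u η) = 0 := by
    intro u v ξ η
    have h := hs (u + v) ξ η
    simp only [map_add, LinearMap.add_apply, hs] at h
    linarith
  have h2 : ∀ v, M v ξ₁ ∈ Submodule.span ℝ {M u₁ η} := by
    intro v
    refine hω2 _ (hM u₁ η) _ (hM v ξ₁) ?_ hη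
    have h := hpol u₁ v ξ₁ η
    rw [hker, map_zero, LinearMap.zero_apply, zero_add] at h
    rw [hskew, h, neg_zero]
  have h3 : ∀ u, M u ξ₁ ≠ 0 → ∀ ξ, M u ξ ∈ Submodule.span ℝ {M u₁ η} := by
    intro u hu ξ
    have h4 := hω2 _ (hM u ξ₁) _ (hM u ξ) (hs u ξ₁ ξ) hu
    exact (Submodule.span_singleton_le_iff_mem _ _).2 (h2 u) h4
  have h5 : ∃ v, M v ξ₁ ≠ 0 := by
    by_contra hcon
    push Not at hcon
    exact hξ₁0 (hk ξ₁ hcon)
  obtain ⟨v₂, hv₂⟩ := h5
  refine ⟨M u₁ η, fun u ξ => ?_⟩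
  by_cases h6 : M u ξ₁ = 0
  · have h7 := h3 (u + v₂) (by
      rw [map_add, LinearMap.add_apply, h6, zero_add]
      exact hv₂) ξ
    have h8 := h3 v₂ hv₂ ξ
    rw [map_add, LinearMap.add_apply] at h7
    have h9 := Submodule.sub_mem _ h7 h8
    rwa [add_sub_cancel_right] at h9
  · exact h3 u h6 ξ

/-- The range of a symmetric form is the annihilator of its kernel. -/
theorem mem_range_of_symm {V : Type*} [NormedAddCommGroup V] [NormedSpace ℝ V]
    [FiniteDimensional ℝ V] (B : V →ₗ[ℝ] V →ₗ[ℝ] ℝ) (hB : ∀ x y, B x y = B y x) (l : V →ₗ[ℝ] ℝ)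
    (hl : ∀ v, (∀ u, B v u = 0) → l v = 0) : ∃ x, B x = l := by
  have h1 : l ∈ (LinearMap.ker B).dualAnnihilator := by
    rw [Submodule.mem_dualAnnihilator]
    intro v hv
    refine hl v fun u => ?_
    rw [LinearMap.mem_ker.1 hv, LinearMap.zero_apply]
  rw [← LinearMap.range_dualMap_eq_dualAnnihilator_ker] at h1
  obtain ⟨φ, hφ⟩ := h1
  obtain ⟨x, rfl⟩ := (Module.evalEquiv ℝ V).surjective φ
  refine ⟨x, ?_⟩
  rw [← hφ]
  ext y
  rw [LinearMap.dualMap_apply, Module.evalEquiv_apply, Module.Dual.eval_apply]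
  exact hB x y

/-- The alternating form of two maps. -/
def altTwo {E V : Type*} [NormedAddCommGroup E] [NormedSpace ℝ E]
    [NormedAddCommGroup V] [NormedSpace ℝ V]
    (ω : V →ₗ[ℝ] V →ₗ[ℝ] ℝ) (P Q : E →ₗ[ℝ] V) : E →ₗ[ℝ] E →ₗ[ℝ] ℝ :=
  LinearMap.mk₂ ℝ (fun ξ η => ω (P ξ) (Q η) + ω (Q ξ) (P η)) (by
      intro x y z
      simp only [map_add, LinearMap.add_apply]
      ring) (by
      intro c x y
      simp only [map_smul, LinearMap.smul_apply, smul_eq_mul]
      ring) (by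
      intro x y z
      simp only [map_add]
      ring) (by
      intro c x y
      simp only [map_smul, smul_eq_mul]
      ring)

theorem altTwo_apply {E V : Type*} [NormedAddCommGroup E] [NormedSpace ℝ E]
    [NormedAddCommGroup V] [NormedSpace ℝ V]
    (ω : V →ₗ[ℝ] V →ₗ[ℝ] ℝ) (P Q : E →ₗ[ℝ] V) (ξ η : E) :
    altTwo ω P Q ξ η = ω (P ξ) (Q η) + ω (Q ξ) (P η) := rfl

theorem altTwo_self {E V : Type*} [NormedAddCommGroup E] [NormedSpace ℝ E]
    [NormedAddCommGroup V] [NormedSpace ℝ V]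
    (ω : V →ₗ[ℝ] V →ₗ[ℝ] ℝ) (hω : ∀ u, ω u u = 0) (P Q : E →ₗ[ℝ] V) (ξ : E) :
    altTwo ω P Q ξ ξ = 0 := by
  rw [altTwo_apply, skew_of_alt ω hω (Q ξ) (P ξ)]
  ring

end alt

/-! ### Linear algebra -/

section lin

variable {V : Type*} [NormedAddCommGroup V] [NormedSpace ℝ V] [FiniteDimensional ℝ V]

theorem exists_span_one {N : Submodule ℝ V} (h : finrank ℝ N = 1) :
    ∃ β ∈ N, β ≠ 0 ∧ N = Submodule.span ℝ {β} := by
  have h1 : N ≠ ⊥ := by
    rintro rfl
    rw [finrank_bot] at h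
    omega
  obtain ⟨β, hβ, hβ0⟩ := Submodule.exists_mem_ne_zero_of_ne_bot h1
  refine ⟨β, hβ, hβ0, ?_⟩
  refine (Submodule.eq_of_le_of_finrank_eq ((Submodule.span_singleton_le_iff_mem _ _).2 hβ) ?_).symm
  rw [finrank_span_singleton hβ0, h]

omit [FiniteDimensional ℝ V] in
/-- A coordinate on a line. -/
theorem exists_coord_one {β : V} (hβ : β ≠ 0) : ∃ f : V →ₗ[ℝ] ℝ, f β = 1 ∧
    ∀ v ∈ Submodule.span ℝ {β}, v = f v • β := by
  obtain ⟨f, hf⟩ := SeparatingDual.exists_eq_one (R := ℝ) hβ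
  refine ⟨f, hf, fun v hv => ?_⟩
  obtain ⟨c, rfl⟩ := Submodule.mem_span_singleton.1 hv
  rw [map_smul]
  change c • β = (c • f β) • β
  rw [hf, smul_eq_mul, mul_one]

theorem exists_ker {E : Type*} [NormedAddCommGroup E] [NormedSpace ℝ E] [FiniteDimensional ℝ E]
    (f : E →ₗ[ℝ] V) {W : Submodule ℝ V} (h : ∀ ξ, f ξ ∈ W) (hd : finrank ℝ W < finrank ℝ E) :
    ∃ ξ, ξ ≠ 0 ∧ f ξ = 0 := by
  by_contra hcon
  push Not at hcon
  have h1 : Function.Injective f := by
    rw [← LinearMap.ker_eq_bot, LinearMap.ker_eq_bot']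
    intro ξ hξ
    by_contra h2
    exact hcon ξ h2 hξ
  have h2 := LinearMap.finrank_range_of_inj h1
  have h3 : LinearMap.range f ≤ W := by
    rintro _ ⟨ξ, rfl⟩
    exact h ξ
  have h4 := Submodule.finrank_mono h3
  omega

/-- A complement of a subspace of codimension one. -/
theorem exists_compl {K W : Submodule ℝ V} (hKW : K ≤ W) (hd : finrank ℝ W = finrank ℝ K + 1) :
    ∃ u ∈ W, u ∉ K ∧ ∀ v ∈ W, ∃ c : ℝ, ∃ k ∈ K, v = k + c • u := by
  have h1 : ¬ W ≤ K := by
    intro h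
    have := Submodule.finrank_mono h
    omega
  obtain ⟨u, hu, huK⟩ := SetLike.not_le_iff_exists.1 h1
  refine ⟨u, hu, huK, fun v hv => ?_⟩
  have h3 : K < K ⊔ Submodule.span ℝ {u} := by
    refine lt_of_le_of_ne le_sup_left fun h4 => huK ?_
    rw [h4]
    exact Submodule.mem_sup_right (Submodule.mem_span_singleton_self _)
  have h4 := Submodule.finrank_lt_finrank_of_lt h3
  have h5 : K ⊔ Submodule.span ℝ {u} = W := by
    refine Submodule.eq_of_le_of_finrank_le
      (sup_le hKW ((Submodule.span_singleton_le_iff_mem _ _).2 hu)) (by omega)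
  rw [← h5] at hv
  obtain ⟨k, hk, z, hz, rfl⟩ := Submodule.mem_sup.1 hv
  obtain ⟨c, rfl⟩ := Submodule.mem_span_singleton.1 hz
  exact ⟨c, k, hk, rfl⟩

end lin

/-! ### Two fields -/

section two

variable {V E G : Type*} [NormedAddCommGroup V] [NormedSpace ℝ V] [FiniteDimensional ℝ V]
    [NormedAddCommGroup E] [NormedSpace ℝ E] [FiniteDimensional ℝ E] [Group G]
  (D : LieData V E G)

/-- Without invariant lines, invariant subspaces of `E` are trivial. -/
theorem sub_triv (hE : finrank ℝ E = 2)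
    (hno : ¬ ∃ H : Subgroup G, H.FiniteIndex ∧ ∃ ζ : E, ζ ≠ 0 ∧
      ∀ g ∈ H, D.ad g ζ ∈ Submodule.span ℝ {ζ}) (N : Submodule ℝ E)
    (hN : ∀ g, ∀ ξ ∈ N, D.ad g ξ ∈ N) : N = ⊥ ∨ N = ⊤ := by
  by_contra hcon
  push Not at hcon
  obtain ⟨h1, h2⟩ := hcon
  have h3 : finrank ℝ N = 1 := by
    have h4 := Submodule.finrank_lt h2
    have h5 : finrank ℝ N ≠ 0 := fun h => h1 (Submodule.finrank_eq_zero.1 h)
    omega
  obtain ⟨ζ, hζ, hζ0, h4⟩ := exists_span_one h3
  refine hno ⟨⊤, inferInstance, ζ, hζ0, fun g _ => ?_⟩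
  rw [← h4]
  exact hN g ζ hζ

/-- The subspace of the `ξ` with `X ξ W ≤ W'`. -/
def fixSub (W W' : Submodule ℝ V) : Submodule ℝ E where
  carrier := {ξ | ∀ v ∈ W, D.X ξ v ∈ W'}
  add_mem' := by
    intro ξ η hξ hη v hv
    rw [map_add, LinearMap.add_apply]
    exact W'.add_mem (hξ v hv) (hη v hv)
  zero_mem' := by
    intro v _
    rw [map_zero, LinearMap.zero_apply]
    exact W'.zero_mem
  smul_mem' := by
    intro c ξ hξ v hv
    rw [map_smul, LinearMap.smul_apply]
    exact W'.smul_mem c (hξ v hv)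

theorem fixSub_ad {W W' : Submodule ℝ V} (hW : LInv D.a ⊤ W) (hW' : LInv D.a ⊤ W') (g : G)
    (ξ : E) (hξ : ξ ∈ fixSub D W W') : D.ad g ξ ∈ fixSub D W W' := by
  intro v hv
  rw [D.X_ad']
  exact hW' g (Subgroup.mem_top _) _ (hξ _ (hW g⁻¹ (Subgroup.mem_top _) v hv))

/-- The subspace of the `ξ` with `w ξ ∈ I`. -/
theorem comap_ad (g : G) (ξ : E) (hξ : ξ ∈ D.I.comap D.w) : D.ad g ξ ∈ D.I.comap D.w := by
  rw [Submodule.mem_comap] at hξ ⊢
  rw [D.w_ad]
  exact D.I.sub_mem (D.linv_I g (Subgroup.mem_top _) _ hξ) (D.X_mem_I _ _)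

/-- `w E` is a complement of `I` when no `w ξ` is in `I`. -/
theorem finrank_sup_w (hb : D.I.comap D.w = ⊥) :
    finrank ℝ (D.I ⊔ LinearMap.range D.w : Submodule ℝ V) = finrank ℝ D.I + finrank ℝ E := by
  have hinj : Function.Injective D.w := by
    rw [← LinearMap.ker_eq_bot, eq_bot_iff, ← hb]
    intro ξ hξ
    rw [Submodule.mem_comap, LinearMap.mem_ker.1 hξ]
    exact D.I.zero_mem
  have h1 : D.I ⊓ LinearMap.range D.w = ⊥ := by
    rw [eq_bot_iff]
    rintro _ ⟨h, ξ, rfl⟩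
    have h2 : ξ ∈ D.I.comap D.w := h
    rw [hb, Submodule.mem_bot] at h2
    rw [h2, map_zero]
    exact Submodule.zero_mem _
  have h2 := Submodule.finrank_sup_add_finrank_inf_eq D.I (LinearMap.range D.w)
  rw [h1, finrank_bot, LinearMap.finrank_range_of_inj hinj] at h2
  omega

variable (hb : ∀ Q : E →ₗ[ℝ] E →ₗ[ℝ] ℝ, (∀ x y, Q x y = Q y x) →
  (∀ g, ∃ c : ℝ, ∀ x y, Q (D.ad g x) (D.ad g y) = c * Q x y) → Q = 0)

include hb

/-- The case `dim I = 1`. -/
theorem case_one (hV : finrank ℝ V = 4) (hE : finrank ℝ E = 2)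
    (hX : ∀ ζ : E, D.X ζ = 0 → ζ = 0)
    (hno : ¬ ∃ H : Subgroup G, H.FiniteIndex ∧ ∃ ζ : E, ζ ≠ 0 ∧
      ∀ g ∈ H, D.ad g ζ ∈ Submodule.span ℝ {ζ}) (hI : finrank ℝ D.I = 1) : False := by
  obtain ⟨β, hβ, hβ0, hIβ⟩ := exists_span_one hI
  obtain ⟨f, hf1, hf⟩ := exists_coord_one hβ0
  rw [← hIβ] at hf
  -- `X I = 0`
  have hJ : D.J D.I = ⊥ := by
    have h1 := D.J_lt (W := D.I) (fun ξ v _ => D.X_mem_I ξ v) (by
      rintro h
      rw [h, finrank_bot] at hI
      omega)
    have h2 := Submodule.finrank_lt_finrank_of_lt h1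
    exact Submodule.finrank_eq_zero.1 (by omega)
  have hXI : ∀ ξ, ∀ v ∈ D.I, D.X ξ v = 0 := by
    intro ξ v hv
    have h1 := D.X_mem_J ξ hv
    rwa [hJ, Submodule.mem_bot] at h1
  -- the form
  have hQ := hb (LinearMap.mk₂ ℝ (fun ξ η => f (D.X ξ (D.w η))) (by
      intro x y z
      simp only [map_add, LinearMap.add_apply]) (by
      intro c x y
      simp only [map_smul, LinearMap.smul_apply, smul_eq_mul]) (by
      intro x y z
      simp only [map_add]) (by
      intro c x y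
      simp only [map_smul, smul_eq_mul])) (by
      intro x y
      rw [LinearMap.mk₂_apply, LinearMap.mk₂_apply, D.commw]) (by
      intro g
      refine ⟨f ((D.a g).linear β), fun x y => ?_⟩
      rw [LinearMap.mk₂_apply, LinearMap.mk₂_apply, D.w_ad, map_sub,
        hXI _ _ (D.X_mem_I _ _), sub_zero, D.X_ad]
      conv_lhs => rw [hf _ (D.X_mem_I x (D.w y))]
      rw [map_smul, map_smul, smul_eq_mul, mul_comm])
  have hXw : ∀ ξ η, D.X ξ (D.w η) = 0 := by
    intro ξ η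
    have h1 := LinearMap.congr_fun (LinearMap.congr_fun hQ ξ) η
    rw [LinearMap.mk₂_apply, LinearMap.zero_apply, LinearMap.zero_apply] at h1
    rw [hf _ (D.X_mem_I _ _), h1, zero_smul]
  rcases sub_triv D hE hno (D.I.comap D.w) (comap_ad D) with h | h
  · have h1 := finrank_sup_w D h
    obtain ⟨u, -, -, hu⟩ := exists_compl (V := V) (W := ⊤) le_top
      (K := D.I ⊔ LinearMap.range D.w) (by rw [finrank_top]; omega)
    obtain ⟨ξ, hξ0, hξ⟩ := exists_ker (D.X.flip u) (W := D.I) (fun ξ => D.X_mem_I ξ u) (by omega)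
    refine hξ0 (hX ξ ?_)
    ext v
    obtain ⟨c, k, hk, rfl⟩ := hu v Submodule.mem_top
    obtain ⟨i, hi, z, ⟨η, rfl⟩, rfl⟩ := Submodule.mem_sup.1 hk
    rw [LinearMap.flip_apply] at hξ
    rw [map_add, map_add, map_smul, hξ, hXI ξ i hi, hXw, smul_zero, add_zero, add_zero,
      LinearMap.zero_apply]
  · have h1 := D.finrank_le_of_T_mem (W := D.I) (by
      intro ξ
      refine D.I.add_mem (D.X_mem_I _ _) ?_
      have h2 : ξ ∈ D.I.comap D.w := by
        rw [h]
        exact Submodule.mem_top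
      exact h2)
    omega

/-- The case `dim I = 3`. -/
theorem case_three (hV : finrank ℝ V = 4) (hE : finrank ℝ E = 2)
    (hno : ¬ ∃ H : Subgroup G, H.FiniteIndex ∧ ∃ ζ : E, ζ ≠ 0 ∧
      ∀ g ∈ H, D.ad g ζ ∈ Submodule.span ℝ {ζ}) (hI : finrank ℝ D.I = 3) : False := by
  have hIJ : D.J D.I < D.I := D.J_lt (fun ξ v _ => D.X_mem_I ξ v) (by
    rintro h
    rw [h, finrank_bot] at hI
    omega)
  have hJinv : LInv D.a ⊤ (D.J D.I) := D.linv_J D.linv_I
  obtain ⟨e, -, -, he⟩ := exists_compl (V := V) (W := ⊤) (K := D.I) le_top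
    (by rw [finrank_top]; omega)
  -- `X ξ e ∈ J` only for `ξ = 0`
  have hN : fixSub D ⊤ (D.J D.I) = ⊥ := by
    rcases sub_triv D hE hno (fixSub D ⊤ (D.J D.I)) (fun g => fixSub_ad D LInv.top hJinv g)
      with h | h
    · exact h
    · exfalso
      have h1 : D.I ≤ D.J D.I := D.I_le fun ξ v => by
        have h2 : ξ ∈ fixSub D ⊤ (D.J D.I) := by
          rw [h]
          exact Submodule.mem_top
        exact h2 v Submodule.mem_top
      exact absurd hIJ (not_lt_of_ge h1)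
  have hN' : ∀ ξ, D.X ξ e ∈ D.J D.I → ξ = 0 := by
    intro ξ hξ
    have h1 : ξ ∈ fixSub D ⊤ (D.J D.I) := by
      intro v hv
      obtain ⟨c, k, hk, rfl⟩ := he v hv
      rw [map_add, map_smul]
      exact Submodule.add_mem _ (D.X_mem_J ξ hk) (Submodule.smul_mem _ _ hξ)
    rwa [hN, Submodule.mem_bot] at h1
  -- `dim J = 1`
  have hsup : D.J D.I ⊔ LinearMap.range (D.X.flip e) = D.I := by
    refine le_antisymm (sup_le hIJ.le ?_) (D.I_le fun ξ v => ?_)
    · rintro _ ⟨ξ, rfl⟩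
      exact D.X_mem_I ξ e
    · obtain ⟨c, k, hk, rfl⟩ := he v Submodule.mem_top
      rw [map_add, map_smul]
      exact Submodule.add_mem_sup (D.X_mem_J ξ hk) (Submodule.smul_mem _ _ ⟨ξ, rfl⟩)
  have hinf : D.J D.I ⊓ LinearMap.range (D.X.flip e) = ⊥ := by
    rw [eq_bot_iff]
    rintro _ ⟨h, ξ, rfl⟩
    rw [LinearMap.flip_apply] at h ⊢
    rw [hN' ξ h, map_zero, LinearMap.zero_apply]
    exact Submodule.zero_mem _
  have hinj : Function.Injective (D.X.flip e) := by
    rw [← LinearMap.ker_eq_bot, LinearMap.ker_eq_bot']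
    intro ξ hξ
    apply hN'
    rw [LinearMap.flip_apply] at hξ
    rw [hξ]
    exact Submodule.zero_mem _
  have hJ1 : finrank ℝ (D.J D.I) = 1 := by
    have h2 := Submodule.finrank_sup_add_finrank_inf_eq (D.J D.I) (LinearMap.range (D.X.flip e))
    rw [hsup, hinf, finrank_bot, LinearMap.finrank_range_of_inj hinj] at h2
    omega
  obtain ⟨β, hβ, hβ0, hJβ⟩ := exists_span_one hJ1
  obtain ⟨f, hf1, hf⟩ := exists_coord_one hβ0
  rw [← hJβ] at hf
  -- `X J = 0`
  have hJJ : D.J (D.J D.I) = ⊥ := by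
    have h1 := D.J_lt (W := D.J D.I) (fun ξ v hv => D.X_mem_J ξ (hIJ.le hv)) (by
      rintro h
      rw [h, finrank_bot] at hJ1
      omega)
    have h2 := Submodule.finrank_lt_finrank_of_lt h1
    exact Submodule.finrank_eq_zero.1 (by omega)
  have hXJ : ∀ ξ, ∀ v ∈ D.J D.I, D.X ξ v = 0 := by
    intro ξ v hv
    have h1 := D.X_mem_J ξ hv
    rwa [hJJ, Submodule.mem_bot] at h1
  have hmem : ∀ ξ η v, D.X ξ (D.X η v) ∈ D.J D.I := fun ξ η v => D.X_mem_J ξ (D.X_mem_I η v)
  have hQ := hb (LinearMap.mk₂ ℝ (fun ξ η => f (D.X ξ (D.X η e))) (by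
      intro x y z
      simp only [map_add, LinearMap.add_apply]) (by
      intro c x y
      simp only [map_smul, LinearMap.smul_apply, smul_eq_mul]) (by
      intro x y z
      simp only [map_add, LinearMap.add_apply]) (by
      intro c x y
      simp only [map_smul, LinearMap.smul_apply, smul_eq_mul])) (by
      intro x y
      rw [LinearMap.mk₂_apply, LinearMap.mk₂_apply, D.comm]) (by
      intro g
      obtain ⟨c, k, hk, hc⟩ := he ((D.a g⁻¹).linear e) Submodule.mem_top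
      refine ⟨c * f ((D.a g).linear β), fun x y => ?_⟩
      rw [LinearMap.mk₂_apply, LinearMap.mk₂_apply, D.X_ad' g y e, D.X_ad, hc, map_add,
        map_smul, map_add, hXJ _ _ (D.X_mem_J y hk), zero_add, map_smul]
      conv_lhs => rw [hf _ (hmem x y e)]
      rw [map_smul, map_smul, map_smul, map_smul, smul_eq_mul, smul_eq_mul]
      ring)
  have hXX : ∀ ξ η, D.X ξ (D.X η e) = 0 := by
    intro ξ η
    have h1 := LinearMap.congr_fun (LinearMap.congr_fun hQ ξ) η
    rw [LinearMap.mk₂_apply, LinearMap.zero_apply, LinearMap.zero_apply] at h1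
    rw [hf _ (hmem _ _ _), h1, zero_smul]
  have hbot : D.J D.I = ⊥ := by
    rw [eq_bot_iff]
    refine D.J_le fun ξ v hv => ?_
    rw [← hsup] at hv
    obtain ⟨j, hj, z, ⟨η, rfl⟩, rfl⟩ := Submodule.mem_sup.1 hv
    rw [LinearMap.flip_apply, map_add, hXJ ξ j hj, hXX, add_zero]
    exact Submodule.zero_mem _
  rw [hbot, finrank_bot] at hJ1
  omega

omit hb in
/-- The case `dim I = 2`: the linear parts vanish on `I`. -/
theorem X_I_zero (hE : finrank ℝ E = 2)
    (hno : ¬ ∃ H : Subgroup G, H.FiniteIndex ∧ ∃ ζ : E, ζ ≠ 0 ∧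
      ∀ g ∈ H, D.ad g ζ ∈ Submodule.span ℝ {ζ}) (hI : finrank ℝ D.I = 2) :
    ∀ ξ, ∀ v ∈ D.I, D.X ξ v = 0 := by
  have hIJ : D.J D.I < D.I := D.J_lt (fun ξ v _ => D.X_mem_I ξ v) (by
    rintro h
    rw [h, finrank_bot] at hI
    omega)
  have hd := Submodule.finrank_lt_finrank_of_lt hIJ
  rcases sub_triv D hE hno (fixSub D D.I ⊥) (fun g => fixSub_ad D D.linv_I LInv.bot g) with h | h
  swap
  · intro ξ v hv
    have h1 : ξ ∈ fixSub D D.I ⊥ := by
      rw [h]
      exact Submodule.mem_top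
    exact (Submodule.mem_bot ℝ).1 (h1 v hv)
  exfalso
  by_cases hJ : finrank ℝ (D.J D.I) = 0
  · have hJ0 := Submodule.finrank_eq_zero.1 hJ
    have h2 : (⊤ : Submodule ℝ E) ≤ ⊥ := by
      rw [← h]
      intro ξ _ v hv
      have h1 := D.X_mem_J ξ hv
      rwa [hJ0] at h1
    have h3 := Submodule.finrank_mono h2
    rw [finrank_top, finrank_bot] at h3
    omega
  · obtain ⟨i, hi, -, hc⟩ := exists_compl hIJ.le (by omega)
    have hJJ : D.J (D.J D.I) = ⊥ := by
      have h1 := D.J_lt (W := D.J D.I) (fun ξ v hv => D.X_mem_J ξ (hIJ.le hv)) (by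
        rintro h
        rw [h, finrank_bot] at hJ
        omega)
      have h2 := Submodule.finrank_lt_finrank_of_lt h1
      exact Submodule.finrank_eq_zero.1 (by omega)
    have hXJ : ∀ ξ, ∀ v ∈ D.J D.I, D.X ξ v = 0 := by
      intro ξ v hv
      have h1 := D.X_mem_J ξ hv
      rwa [hJJ, Submodule.mem_bot] at h1
    obtain ⟨ξ, hξ0, hξ⟩ := exists_ker (D.X.flip i) (W := D.J D.I) (fun ξ => D.X_mem_J ξ hi)
      (by omega)
    rw [LinearMap.flip_apply] at hξ
    apply hξ0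
    have h1 : ξ ∈ fixSub D D.I ⊥ := by
      intro v hv
      obtain ⟨c, k, hk, rfl⟩ := hc v hv
      rw [map_add, map_smul, hXJ ξ k hk, hξ, smul_zero, add_zero]
      exact Submodule.zero_mem _
    rwa [h, Submodule.mem_bot] at h1

omit hb in
/-- A common image line is excluded by `dim I = 2`. -/
theorem no_common (hI : finrank ℝ D.I = 2) {ι : V}
    (h : ∀ ξ v, D.X ξ v ∈ Submodule.span ℝ {ι}) : False := by
  have h1 : D.I ≤ Submodule.span ℝ {ι} := D.I_le h
  have h2 := Submodule.finrank_mono h1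
  have h3 := finrank_span_le_card (R := ℝ) ({ι} : Set V)
  rw [Set.toFinset_singleton, Finset.card_singleton] at h3
  omega

/-- The case `dim I = 2`, `w E` a complement of `I`. -/
theorem case_two_bot (hV : finrank ℝ V = 4) (hE : finrank ℝ E = 2)
    (hX : ∀ ζ : E, D.X ζ = 0 → ζ = 0) (hI : finrank ℝ D.I = 2)
    (hXI : ∀ ξ, ∀ v ∈ D.I, D.X ξ v = 0) (hw : D.I.comap D.w = ⊥) : False := by
  have htop : D.I ⊔ LinearMap.range D.w = ⊤ := by
    refine Submodule.eq_top_of_finrank_eq ?_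
    rw [finrank_sup_w D hw]
    omega
  obtain ⟨ω, hω, hω2, hω3⟩ := exists_area D.I hI
  obtain ⟨e₀, e₁, d, hd⟩ := exists_coord hE
  -- `M ξ η = X ξ (w η)`
  let M : E →ₗ[ℝ] E →ₗ[ℝ] V := LinearMap.mk₂ ℝ (fun ξ η => D.X ξ (D.w η)) (by
      intro x y z
      simp only [map_add, LinearMap.add_apply]) (by
      intro c x y
      simp only [map_smul, LinearMap.smul_apply]) (by
      intro x y z
      simp only [map_add]) (by
      intro c x y
      simp only [map_smul])
  have hMa : ∀ ξ η, M ξ η = D.X ξ (D.w η) := fun _ _ => rfl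
  have hMI : ∀ ξ η, M ξ η ∈ D.I := fun ξ η => D.X_mem_I ξ _
  have hMg : ∀ g ξ η, M (D.ad g ξ) (D.ad g η) = (D.a g).linear (M ξ η) := by
    intro g ξ η
    rw [hMa, hMa, D.w_ad, map_sub, hXI _ _ (D.X_mem_I _ _), sub_zero, D.X_ad]
  have hQ := hb (LinearMap.mk₂ ℝ (fun ξ η => altTwo ω (M ξ) (M η) e₀ e₁) (by
      intro x y z
      simp only [altTwo_apply, map_add, LinearMap.add_apply]
      ring) (by
      intro c x y
      simp only [altTwo_apply, map_smul, LinearMap.smul_apply, smul_eq_mul]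
      ring) (by
      intro x y z
      simp only [altTwo_apply, map_add, LinearMap.add_apply]
      ring) (by
      intro c x y
      simp only [altTwo_apply, map_smul, LinearMap.smul_apply, smul_eq_mul]
      ring)) (by
      intro x y
      rw [LinearMap.mk₂_apply, LinearMap.mk₂_apply, altTwo_apply, altTwo_apply]
      ring) (by
      intro g
      obtain ⟨c, hc⟩ := hω3 (LinearMap.mk₂ ℝ (fun u v => ω ((D.a g).linear u) ((D.a g).linear v))
        (by
          intro x y z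
          simp only [map_add, LinearMap.add_apply]) (by
          intro c x y
          simp only [map_smul, LinearMap.smul_apply]) (by
          intro x y z
          simp only [map_add]) (by
          intro c x y
          simp only [map_smul])) (by
          intro u
          rw [LinearMap.mk₂_apply, hω])
      refine ⟨c * d (D.ad g⁻¹ e₀) (D.ad g⁻¹ e₁), fun x y => ?_⟩
      have h1 : ∀ u ∈ D.I, ∀ v ∈ D.I,
          ω ((D.a g).linear u) ((D.a g).linear v) = c * ω u v := hc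
      rw [LinearMap.mk₂_apply, LinearMap.mk₂_apply]
      have h2 := hd (altTwo ω (M x) (M y)) (altTwo_self ω hω _ _) (D.ad g⁻¹ e₀) (D.ad g⁻¹ e₁)
      have h3 : altTwo ω (M (D.ad g x)) (M (D.ad g y)) e₀ e₁ =
          c * altTwo ω (M x) (M y) (D.ad g⁻¹ e₀) (D.ad g⁻¹ e₁) := by
        have e1 : ∀ ξ η, M (D.ad g ξ) η = (D.a g).linear (M ξ (D.ad g⁻¹ η)) := by
          intro ξ η
          rw [← hMg, D.ad_inv']
        rw [altTwo_apply, altTwo_apply, e1, e1, e1, e1, h1 _ (hMI _ _) _ (hMI _ _),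
          h1 _ (hMI _ _) _ (hMI _ _)]
        ring
      rw [h3, h2]
      ring)
  have hs : ∀ u ξ η, ω (M u ξ) (M u η) = 0 := by
    intro u ξ η
    have h1 := LinearMap.congr_fun (LinearMap.congr_fun hQ u) u
    rw [LinearMap.mk₂_apply, LinearMap.zero_apply, LinearMap.zero_apply] at h1
    have h2 := hd (altTwo ω (M u) (M u)) (altTwo_self ω hω _ _) ξ η
    rw [h1, mul_zero, altTwo_apply] at h2
    linarith
  have hk : ∀ ξ, (∀ u, M u ξ = 0) → ξ = 0 := by
    intro ξ hξ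
    refine hX ξ ?_
    ext v
    have hv : v ∈ D.I ⊔ LinearMap.range D.w := by
      rw [htop]
      exact Submodule.mem_top
    obtain ⟨i, hi, z, ⟨η, rfl⟩, rfl⟩ := Submodule.mem_sup.1 hv
    have h1 := hξ η
    rw [hMa, D.commw] at h1
    rw [map_add, hXI ξ i hi, h1, add_zero, LinearMap.zero_apply]
  obtain ⟨ι, hι⟩ := common_image hE ω hω hω2 M hMI hs hk
  refine no_common D hI (ι := ι) fun ξ v => ?_
  have hv : v ∈ D.I ⊔ LinearMap.range D.w := by
    rw [htop]
    exact Submodule.mem_top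
  obtain ⟨i, hi, z, ⟨η, rfl⟩, rfl⟩ := Submodule.mem_sup.1 hv
  rw [map_add, hXI ξ i hi, zero_add]
  exact hι ξ η

omit hb in
/-- The case `dim I = 2`, `w E` in `I`. -/
theorem case_two_top (hV : finrank ℝ V = 4) (hE : finrank ℝ E = 2)
    (hX : ∀ ζ : E, D.X ζ = 0 → ζ = 0)
    (hno : ¬ ∃ H : Subgroup G, H.FiniteIndex ∧ ∃ ζ : E, ζ ≠ 0 ∧
      ∀ g ∈ H, D.ad g ζ ∈ Submodule.span ℝ {ζ}) (hI : finrank ℝ D.I = 2)
    (hXI : ∀ ξ, ∀ v ∈ D.I, D.X ξ v = 0) (hw : D.I.comap D.w = ⊤) : False := by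
  obtain ⟨ω, hω, hω2, hω3⟩ := exists_area D.I hI
  obtain ⟨e₀, e₁, d, hd⟩ := exists_coord hE
  have hwI : ∀ ξ, D.w ξ ∈ D.I := by
    intro ξ
    have h1 : ξ ∈ D.I.comap D.w := by
      rw [hw]
      exact Submodule.mem_top
    exact h1
  have hTI : ∀ x ξ, D.T x ξ ∈ D.I := fun x ξ => D.I.add_mem (D.X_mem_I _ _) (hwI _)
  have hFI : ∀ v ξ, D.X.flip v ξ ∈ D.I := fun v ξ => D.X_mem_I _ _
  -- the forms
  let q : V →ₗ[ℝ] V →ₗ[ℝ] ℝ :=
    LinearMap.mk₂ ℝ (fun x v => altTwo ω (D.X.flip x) (D.X.flip v) e₀ e₁) (by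
      intro x y z
      simp only [altTwo_apply, map_add, LinearMap.add_apply]
      ring) (by
      intro c x y
      simp only [altTwo_apply, map_smul, LinearMap.smul_apply, smul_eq_mul]
      ring) (by
      intro x y z
      simp only [altTwo_apply, map_add, LinearMap.add_apply]
      ring) (by
      intro c x y
      simp only [altTwo_apply, map_smul, LinearMap.smul_apply, smul_eq_mul]
      ring)
  have hqa : ∀ x v, q x v = altTwo ω (D.X.flip x) (D.X.flip v) e₀ e₁ := fun _ _ => rfl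
  have hqs : ∀ x v, q x v = q v x := by
    intro x v
    rw [hqa, hqa, altTwo_apply, altTwo_apply]
    ring
  let l : V →ₗ[ℝ] ℝ :=
    { toFun := fun v => altTwo ω D.w (D.X.flip v) e₀ e₁
      map_add' := by
        intro x y
        simp only [altTwo_apply, map_add, LinearMap.add_apply]
        ring
      map_smul' := by
        intro c x
        simp only [altTwo_apply, map_smul, LinearMap.smul_apply, smul_eq_mul, RingHom.id_apply]
        ring }
  have hla : ∀ v, l v = altTwo ω D.w (D.X.flip v) e₀ e₁ := fun _ => rfl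
  have hB : ∀ x v, altTwo ω (D.T x) (D.X.flip v) e₀ e₁ = q x v + l v := by
    intro x v
    rw [hqa, hla]
    simp only [altTwo_apply, D.T_apply, map_add, LinearMap.add_apply, LinearMap.flip_apply]
    ring
  have hinv : ∀ g, ∃ κ : ℝ, ∀ x v, q (D.a g x) ((D.a g).linear v) + l ((D.a g).linear v) =
      κ * (q x v + l v) := by
    intro g
    obtain ⟨c, hc⟩ := hω3 (LinearMap.mk₂ ℝ (fun u v => ω ((D.a g).linear u) ((D.a g).linear v))
      (by
        intro x y z
        simp only [map_add, LinearMap.add_apply]) (by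
        intro c x y
        simp only [map_smul, LinearMap.smul_apply]) (by
        intro x y z
        simp only [map_add]) (by
        intro c x y
        simp only [map_smul])) (by
        intro u
        rw [LinearMap.mk₂_apply, hω])
    refine ⟨c * d (D.ad g⁻¹ e₀) (D.ad g⁻¹ e₁), fun x v => ?_⟩
    have h1 : ∀ u ∈ D.I, ∀ v ∈ D.I,
        ω ((D.a g).linear u) ((D.a g).linear v) = c * ω u v := hc
    have h2 := hd (altTwo ω (D.T x) (D.X.flip v)) (altTwo_self ω hω _ _) (D.ad g⁻¹ e₀)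
      (D.ad g⁻¹ e₁)
    have h3 : altTwo ω (D.T (D.a g x)) (D.X.flip ((D.a g).linear v)) e₀ e₁ =
        c * altTwo ω (D.T x) (D.X.flip v) (D.ad g⁻¹ e₀) (D.ad g⁻¹ e₁) := by
      have e1 : ∀ η, D.T (D.a g x) η = (D.a g).linear (D.T x (D.ad g⁻¹ η)) := by
        intro η
        rw [← D.T_ad, D.ad_inv']
      have e2 : ∀ η, D.X.flip ((D.a g).linear v) η = (D.a g).linear (D.X.flip v (D.ad g⁻¹ η)) := by
        intro η
        rw [LinearMap.flip_apply, LinearMap.flip_apply, ← D.X_ad, D.ad_inv']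
      rw [altTwo_apply, altTwo_apply, e1, e1, e2, e2, h1 _ (hTI _ _) _ (hFI _ _),
        h1 _ (hFI _ _) _ (hTI _ _)]
      ring
    rw [← hB, ← hB, h3, h2]
    ring
  -- the radical is invariant
  have hRinv : LInv D.a ⊤ (LinearMap.ker q) := by
    intro g _ r hr
    obtain ⟨κ, hκ⟩ := hinv g
    rw [LinearMap.mem_ker] at hr ⊢
    have h1 : ∀ y, q y ((D.a g).linear r) + l ((D.a g).linear r) = κ * l r := by
      intro y
      have h2 := hκ ((D.a g).symm y) r
      rw [AffineEquiv.apply_symm_apply, hqs _ r, hr, LinearMap.zero_apply, zero_add] at h2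
      exact h2
    ext y
    rw [LinearMap.zero_apply, hqs]
    have h2 := h1 y
    have h3 := h1 0
    rw [map_zero, LinearMap.zero_apply] at h3
    linarith
  have hIR : D.I ≤ LinearMap.ker q := by
    intro i hi
    rw [LinearMap.mem_ker]
    ext v
    rw [hqa, altTwo_apply]
    simp only [LinearMap.flip_apply, hXI _ i hi, map_zero, LinearMap.zero_apply, add_zero]
  -- singular maps
  have hsing : ∀ x, q x x = 0 → ∀ ξ η, ω (D.X ξ x) (D.X η x) = 0 := by
    intro x hx ξ η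
    rw [hqa] at hx
    have h2 := hd (altTwo ω (D.X.flip x) (D.X.flip x)) (altTwo_self ω hω _ _) ξ η
    rw [hx, mul_zero, altTwo_apply] at h2
    have h3 : ω (D.X.flip x ξ) (D.X.flip x η) = 0 := by linarith
    exact h3
  by_cases hR : LinearMap.ker q = ⊤
  · have hq0 : ∀ x, q x x = 0 := by
      intro x
      rw [LinearMap.ker_eq_top.1 hR, LinearMap.zero_apply, LinearMap.zero_apply]
    obtain ⟨ι, hι⟩ := common_image hE ω hω hω2 D.X.flip (fun u ξ => D.X_mem_I ξ u)
      (fun u ξ η => hsing u (hq0 u) ξ η) (by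
        intro ξ hξ
        refine hX ξ ?_
        ext v
        exact hξ v)
    exact no_common D hI (ι := ι) fun ξ v => hι v ξ
  · -- some `ξ ≠ 0` kills the radical
    have hex : ∃ ξ, ξ ≠ 0 ∧ ξ ∈ fixSub D (LinearMap.ker q) ⊥ := by
      have hnt : Nontrivial E := Module.nontrivial_of_finrank_pos (R := ℝ) (by omega)
      by_cases hd2 : finrank ℝ (LinearMap.ker q) ≤ 2
      · have h1 : D.I = LinearMap.ker q := Submodule.eq_of_le_of_finrank_le hIR (by omega)
        obtain ⟨ξ, hξ⟩ := exists_ne (0 : E)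
        refine ⟨ξ, hξ, fun v hv => ?_⟩
        rw [← h1] at hv
        rw [hXI ξ v hv]
        exact Submodule.zero_mem _
      · have h1 := Submodule.finrank_lt hR
        obtain ⟨y, hy, -, hc⟩ := exists_compl hIR (by omega)
        have hyy : q y y = 0 := by
          rw [LinearMap.mem_ker.1 hy, LinearMap.zero_apply]
        have hs := hsing y hyy
        obtain ⟨ξ, hξ0, hξ⟩ : ∃ ξ, ξ ≠ 0 ∧ D.X ξ y = 0 := by
          by_contra hcon
          push Not at hcon
          have hinj : Function.Injective (D.X.flip y) := by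
            rw [← LinearMap.ker_eq_bot, LinearMap.ker_eq_bot']
            intro ξ hξ
            by_contra h2
            exact hcon ξ h2 hξ
          obtain ⟨ξ, hξ⟩ := exists_ne (0 : E)
          have h2 : ∀ η, D.X.flip y η ∈ Submodule.span ℝ {D.X ξ y} := fun η =>
            hω2 _ (D.X_mem_I ξ y) _ (D.X_mem_I η y) (hs ξ η) (hcon ξ hξ)
          obtain ⟨η, hη0, hη⟩ := exists_ker (D.X.flip y) h2 (by
            rw [finrank_span_singleton (hcon ξ hξ)]
            omega)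
          exact hcon η hη0 hη
        refine ⟨ξ, hξ0, fun v hv => ?_⟩
        obtain ⟨c, k, hk, rfl⟩ := hc v hv
        rw [map_add, map_smul, hXI ξ k hk, hξ, smul_zero, add_zero]
        exact Submodule.zero_mem _
    obtain ⟨ξ, hξ0, hξ⟩ := hex
    have hker : ∀ η, ∀ v ∈ LinearMap.ker q, D.X η v = 0 := by
      rcases sub_triv D hE hno (fixSub D (LinearMap.ker q) ⊥)
        (fun g => fixSub_ad D hRinv LInv.bot g) with h | h
      · rw [h, Submodule.mem_bot] at hξ
        exact absurd hξ hξ0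
      · intro η v hv
        have h1 : η ∈ fixSub D (LinearMap.ker q) ⊥ := by
          rw [h]
          exact Submodule.mem_top
        exact (Submodule.mem_bot ℝ).1 (h1 v hv)
    obtain ⟨x, hx⟩ := mem_range_of_symm q hqs (-l) (by
      intro v hv
      have h1 : v ∈ LinearMap.ker q := by
        rw [LinearMap.mem_ker]
        ext u
        exact hv u
      rw [LinearMap.neg_apply, hla, altTwo_apply, LinearMap.flip_apply, LinearMap.flip_apply,
        hker _ v h1, hker _ v h1, map_zero, map_zero, LinearMap.zero_apply, add_zero, neg_zero])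
    have hx' : ∀ v, q x v + l v = 0 := by
      intro v
      rw [hx, LinearMap.neg_apply, neg_add_cancel]
    refine hR (D.eq_top_of_coset (H := ⊤) inferInstance hRinv (x := x) fun g _ => ?_)
    obtain ⟨κ, hκ⟩ := hinv g
    rw [LinearMap.mem_ker, map_sub]
    ext v
    have h1 := hκ x ((D.a g⁻¹).linear v)
    rw [lin_inv', hx', mul_zero] at h1
    have h2 := hx' v
    rw [LinearMap.sub_apply, LinearMap.zero_apply]
    linarith

/-- The three cases. -/
theorem two_noline_of (hV : finrank ℝ V = 4) (hE : finrank ℝ E = 2)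
    (hX : ∀ ζ : E, D.X ζ = 0 → ζ = 0)
    (hno : ¬ ∃ H : Subgroup G, H.FiniteIndex ∧ ∃ ζ : E, ζ ≠ 0 ∧
      ∀ g ∈ H, D.ad g ζ ∈ Submodule.span ℝ {ζ}) : False := by
  have hntV : Nontrivial V := Module.nontrivial_of_finrank_pos (R := ℝ) (by omega)
  have hntE : Nontrivial E := Module.nontrivial_of_finrank_pos (R := ℝ) (by omega)
  have h4 := Submodule.finrank_lt (D.I_ne_top hntV)
  have h0 : finrank ℝ D.I ≠ 0 := by
    intro h0
    rw [Submodule.finrank_eq_zero] at h0
    obtain ⟨ξ, hξ⟩ := exists_ne (0 : E)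
    refine hξ (hX ξ ?_)
    ext v
    have h1 := D.X_mem_I ξ v
    rwa [h0, Submodule.mem_bot] at h1
  have h5 : finrank ℝ D.I = 1 ∨ finrank ℝ D.I = 2 ∨ finrank ℝ D.I = 3 := by omega
  rcases h5 with h | h | h
  · exact case_one D hb hV hE hX hno h
  · have hXI := X_I_zero D hE hno h
    rcases sub_triv D hE hno (D.I.comap D.w) (comap_ad D) with h6 | h6
    · exact case_two_bot D hb hV hE hX h hXI h6
    · exact case_two_top D hV hE hX hno h hXI h6
  · exact case_three D hb hV hE hno h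

end two

end Pool.Agent.Helper94.K4
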